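import Pool.Agent.TH266.UM.Stmts

/-!
# N13: the top row and the empty rows
-/

set_option autoImplicit false

namespace Pool.Agent.TH266.UM

open Finset

/-- the interval of the index `J = j + k i` -/
noncomputable def rtI (lam : ℝ) (v : ℤ) (k d e t J : ℕ) : Finset ℤ :=
  Finset.Icc (LL lam d e (J + k * t) + v * ((J / k + t : ℕ) : ℤ)) (UU lam d J + v * ((J / k : ℕ) : ℤ))

lemma rt_len (lam K : ℝ) (v : ℤ) (k d e t i j : ℕ) (hlam : (k : ℝ) * lam + v = K) :
    (((UU lam d (j + k * i) + v * (i : ℤ) : ℤ) : ℝ) -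
      ((LL lam d e (j + k * (i + t)) + v * ((i + t : ℕ) : ℤ) : ℤ) : ℝ)) ≤
      3 * d - K * t - 9 * ((j + k * i : ℕ) : ℝ) := by
  have h1 : ((UU lam d (j + k * i) : ℤ) : ℝ) ≤ (9 - lam) * ((d : ℝ) / 3 - ((j + k * i : ℕ) : ℝ)) := by
    unfold UU
    exact Int.floor_le _
  have h2 : -(lam * ((d : ℝ) / 3 - ((j + k * (i + t) : ℕ) : ℝ))) ≤
      ((LL lam d e (j + k * (i + t)) : ℤ) : ℝ) := by
    unfold LL
    have h3 := Int.le_ceil (-(lam * ((d : ℝ) / 3 - ((j + k * (i + t) : ℕ) : ℝ))))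
    have h4 : (0 : ℝ) ≤ ((((e - (j + k * (i + t)) : ℕ) : ℤ)) : ℝ) := by positivity
    push_cast at h3 h4 ⊢
    linarith
  push_cast at h1 h2 ⊢
  rw [← hlam]
  nlinarith

lemma rt_card (lam K : ℝ) (v : ℤ) (k d e t J : ℕ) (hlam : (k : ℝ) * lam + v = K)
    (hJ : 9 * (J : ℝ) ≤ 3 * d - K * t) :
    (((rtI lam v k d e t J).card : ℕ) : ℝ) ≤ 3 * d - K * t - 9 * J + 1 := by
  have h1 := rt_len lam K v k d e t (J / k) (J % k) hlam
  have h2 : J % k + k * (J / k) = J := Nat.mod_add_div J k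
  have h3 : J % k + k * (J / k + t) = J + k * t := by
    rw [mul_add, ← add_assoc, h2]
  rw [h2, h3] at h1
  unfold rtI
  rw [Int.card_Icc]
  set a := LL lam d e (J + k * t) + v * ((J / k + t : ℕ) : ℤ) with ha
  set b := UU lam d J + v * ((J / k : ℕ) : ℤ) with hb
  rcases le_total 0 (b + 1 - a) with h | h
  · have h4 : (((b + 1 - a).toNat : ℕ) : ℝ) = ((b + 1 - a : ℤ) : ℝ) := by
      rw [← Int.cast_natCast, Int.toNat_of_nonneg h]
    rw [h4]
    push_cast
    linarith
  · rw [Int.toNat_of_nonpos h]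
    push_cast
    linarith

lemma rt_sum (Y : ℝ) (Q : ℕ) : ∑ J ∈ range (Q + 1), (Y - 9 * (J : ℝ) + 1) =
    (Q + 1) * (Y + 1 - 9 * Q / 2) := by
  induction Q with
  | zero => simp
  | succ Q ih =>
    rw [sum_range_succ, ih]
    push_cast
    ring

theorem rowT : S_ROWT := by
  intro k v K lam hk hlam _ d e t
  refine ⟨?_, ?_⟩
  · intro hY B hB
    set Y : ℝ := 3 * d - K * t with hYd
    obtain ⟨Q, hQ1, hQ2⟩ : ∃ Q : ℕ, 9 * (Q : ℝ) ≤ Y ∧ Y < 9 * (Q + 1) := by
      refine ⟨⌊Y / 9⌋₊, ?_, ?_⟩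
      · have := Nat.floor_le (show 0 ≤ Y / 9 by positivity)
        linarith
      · have := Nat.lt_floor_add_one (Y / 9)
        linarith
    have h1 : ∀ j ∈ range k, (B j).card ≤
        ∑ J ∈ range (Q + 1) with J % k = j, (rtI lam v k d e t J).card := by
      intro j hj
      have hj' := mem_range.1 hj
      have h2 : B j ⊆ ((range (Q + 1)).filter (fun J => J % k = j)).biUnion
          (rtI lam v k d e t) := by
        intro z hz
        obtain ⟨i, hi1, hi2⟩ := hB j hj' z hz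
        have h3 := rt_len lam K v k d e t i j hlam
        have h4 : ((LL lam d e (j + k * (i + t)) + v * ((i + t : ℕ) : ℤ) : ℤ) : ℝ) ≤ (z : ℝ) := by
          exact_mod_cast hi1
        have h5 : (z : ℝ) ≤ ((UU lam d (j + k * i) + v * (i : ℤ) : ℤ) : ℝ) := by
          exact_mod_cast hi2
        have h6 : 9 * ((j + k * i : ℕ) : ℝ) ≤ Y := by linarith
        have h7 : ((j + k * i : ℕ) : ℝ) < ((Q + 1 : ℕ) : ℝ) := by
          push_cast at h6 ⊢
          linarith
        have h8 : j + k * i < Q + 1 := by exact_mod_cast h7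
        rw [mem_biUnion]
        refine ⟨j + k * i, ?_, ?_⟩
        · rw [mem_filter, mem_range]
          exact ⟨h8, by rw [Nat.add_mul_mod_self_left, Nat.mod_eq_of_lt hj']⟩
        · unfold rtI
          have h9 : (j + k * i) / k = i := by
            rw [Nat.add_mul_div_left _ _ (by omega : 0 < k), Nat.div_eq_of_lt hj', zero_add]
          rw [h9, mem_Icc]
          refine ⟨?_, hi2⟩
          have h10 : j + k * i + k * t = j + k * (i + t) := by ring
          rw [h10]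
          exact hi1
      exact le_trans (card_le_card h2) card_biUnion_le
    have h2 : ∑ j ∈ range k, (B j).card ≤ ∑ J ∈ range (Q + 1), (rtI lam v k d e t J).card := by
      rw [← sum_fiberwise_of_maps_to (s := range (Q + 1)) (t := range k) (g := fun J => J % k)
        (fun J _ => mem_range.2 (Nat.mod_lt _ (by omega)))]
      exact sum_le_sum h1
    have h3 : ((∑ j ∈ range k, (B j).card : ℕ) : ℝ) ≤ ∑ J ∈ range (Q + 1), (Y - 9 * (J : ℝ) + 1) := by
      have h4 : ((∑ j ∈ range k, (B j).card : ℕ) : ℝ) ≤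
          ((∑ J ∈ range (Q + 1), (rtI lam v k d e t J).card : ℕ) : ℝ) := by exact_mod_cast h2
      refine le_trans h4 ?_
      rw [Nat.cast_sum]
      refine sum_le_sum fun J hJ => ?_
      have hJ' : (J : ℝ) ≤ Q := by
        have := mem_range.1 hJ
        exact_mod_cast (by omega : J ≤ Q)
      exact rt_card lam K v k d e t J hlam (by linarith)
    refine le_trans h3 ?_
    rw [rt_sum]
    obtain ⟨g, hg⟩ : ∃ g : ℝ, Y = 9 * Q + g := ⟨Y - 9 * Q, by ring⟩
    have hg0 : 0 ≤ g := by linarith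
    have hQ0 : (0 : ℝ) ≤ Q := Nat.cast_nonneg _
    rw [hg]
    nlinarith [sq_nonneg g]
  · rintro hY j z ⟨i, hi1, hi2⟩
    have h3 := rt_len lam K v k d e t i j hlam
    have h4 : ((LL lam d e (j + k * (i + t)) + v * ((i + t : ℕ) : ℤ) : ℤ) : ℝ) ≤ (z : ℝ) := by
      exact_mod_cast hi1
    have h5 : (z : ℝ) ≤ ((UU lam d (j + k * i) + v * (i : ℤ) : ℤ) : ℝ) := by
      exact_mod_cast hi2
    have h6 : (0 : ℝ) ≤ ((j + k * i : ℕ) : ℝ) := Nat.cast_nonneg _
    linarith

end Pool.Agent.TH266.UM
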